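import Pool.Agent.TH133.Defs
import Mathlib.Data.Finsupp.Basic

/-!
# Abel-Jacobi maps on algebraically trivial cycles: definitions
-/

set_option autoImplicit false

open CategoryTheory

universe u v w

namespace Pool.Agent.X308.J

open Pool.Agent.H914 Pool.Agent.W492.BB Pool.Agent.W550.Corr Pool.Agent.TH133

variable {k : Type u} [Field k] {𝒱 : VarClass k} (C : TheoryData.{u, v, 0} 𝒱 ℚ)

/-- `z ∈ CH^i(X)` is algebraically trivial: it is the image `Γ_* v` of a zero-cycle `v` of degree
zero on a curve `T` under a correspondence `Γ ∈ CH^i(T × X)`. -/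
def AlgTrivial {X : 𝒱.Obj} (i : ℕ) (z : C.A X) : Prop :=
  ∃ (T : 𝒱.Obj) (v : C.A T) (Γ : C.A (T.prod X)), T.dim = 1 ∧ C.Deg 1 v ∧ HasDegree C v 0 ∧
    C.Deg i Γ ∧ z = C.act Γ v

/-- The monomial `w` in the self-correspondences `x 0, x 1, …` of `X`: their composition (the first
letter of `w` acts first). -/
noncomputable def compWord {X : 𝒱.Obj} (x : ℕ → C.A (X.prod X)) : List ℕ → C.A (X.prod X)
  | [] => dg C X
  | i :: w => C.comp (x i) (compWord x w)

/-- The value of the noncommutative polynomial `f` (with rational coefficients, `f w` is the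
coefficient of the monomial `w`) at the self-correspondences `x 0, x 1, …` of `X`. -/
noncomputable def compPoly {X : 𝒱.Obj} (x : ℕ → C.A (X.prod X)) (f : List ℕ →₀ ℚ) :
    C.A (X.prod X) :=
  f.sum fun w c => c • compWord C x w

variable {C} {K : Type w} [Field K] (H : WeilTheoryData.{u, v, w} C K)

/-- The class `z` is homogeneous of degree `e` and homologically trivial. -/
def HomTrivial {X : 𝒱.Obj} (e : ℤ) (z : C.A X) : Prop := C.Deg e z ∧ H.cl z = 0

/-- Known properties of the kernels `N X i ⊆ CH^i(X)` of the Abel-Jacobi maps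
`CH^i(X)_hom → J^(2i-1)(X) ⊗ ℚ`:

* a correspondence acting as zero on `H^(2j-1)(X)` maps `CH^j(X)_hom` to the kernel of the
  Abel-Jacobi map of the target;
* let `v` be a zero-cycle of degree zero on a curve `T` and `Γ ∈ CH^i(T × X)` such that `Γ_* v` is
  in the kernel of the Abel-Jacobi map; then `e_* v = v` for some `e ∈ CH^1(T × T)` such that
  `Γ ∘ e` acts as zero on `H^1(T)` (the projector, up to isogeny, of the Jacobian `J(T)` onto the
  kernel of the homomorphism from `J(T)` to the intermediate Jacobian). -/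
structure IsAJKernel (N : ∀ X : 𝒱.Obj, ℕ → C.A X → Prop) : Prop where
  kills : ∀ (X Y : 𝒱.Obj) (j i : ℕ) (Γ : C.A (X.prod Y)) (z : C.A X),
    C.Deg (X.dim + i - j) Γ → Kills H Γ (2 * j - 1) → HomTrivial H j z → N Y i (C.act Γ z)
  curve : ∀ (T X : 𝒱.Obj) (i : ℕ) (Γ : C.A (T.prod X)) (v : C.A T), T.dim = 1 → C.Deg i Γ →
    C.Deg 1 v → HasDegree C v 0 → N X i (C.act Γ v) →
      ∃ e : C.A (T.prod T), C.Deg 1 e ∧ C.act e v = v ∧ Kills H (C.comp e Γ) 1

/-- The Abel-Jacobi maps are injective on algebraically trivial cycles. -/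
def AJInjective (N : ∀ X : 𝒱.Obj, ℕ → C.A X → Prop) : Prop :=
  ∀ (X : 𝒱.Obj) (i : ℕ) (z : C.A X), AlgTrivial C i z → N X i z → z = 0

/-- Correspondences acting as zero on `H^(2j-1)(X)` act as zero on the algebraically trivial cycles
of codimension `j` on `X`. -/
def KillsActZero : Prop :=
  ∀ (X Y : 𝒱.Obj) (j i : ℕ) (Γ : C.A (X.prod Y)) (z : C.A X),
    C.Deg (X.dim + i - j) Γ → Kills H Γ (2 * j - 1) → AlgTrivial C j z → C.act Γ z = 0

/-- Homologically trivial correspondences act as zero on algebraically trivial cycles. -/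
def HomTrivialActZero : Prop :=
  ∀ (X Y : 𝒱.Obj) (j i : ℕ) (Γ : C.A (X.prod Y)) (z : C.A X),
    HomTrivial H (X.dim + i - j) Γ → AlgTrivial C j z → C.act Γ z = 0

/-- The products of algebraically trivial and homologically trivial cycles are zero. -/
def ProductsVanish : Prop :=
  ∀ (X : 𝒱.Obj) (i : ℕ) (e : ℤ) (a b : C.A X), AlgTrivial C i a → HomTrivial H e b →
    C.mul a b = 0

/-- The compositions of algebraically trivial and homologically trivial self-correspondences of
degree zero, in both orders, are zero. -/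
def CompositionsVanish : Prop :=
  ∀ (X : 𝒱.Obj) (Γ Γ' : C.A (X.prod X)), AlgTrivial C X.dim Γ → HomTrivial H X.dim Γ' →
    C.comp Γ Γ' = 0 ∧ C.comp Γ' Γ = 0

/-- Algebraically trivial and homologically trivial self-correspondences of degree zero commute. -/
def Commute : Prop :=
  ∀ (X : 𝒱.Obj) (Γ Γ' : C.A (X.prod X)), AlgTrivial C X.dim Γ → HomTrivial H X.dim Γ' →
    C.comp Γ Γ' = C.comp Γ' Γ

/-- For all `X` the polynomial identity `f = 0` holds for all self-correspondences `x 0, x 1, …` of
degree zero of `X` such that `x 0` is algebraically trivial and the others are homologically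
trivial. -/
def SatisfyIdentity (f : List ℕ →₀ ℚ) : Prop :=
  ∀ (X : 𝒱.Obj) (x : ℕ → C.A (X.prod X)), AlgTrivial C X.dim (x 0) →
    (∀ n, 1 ≤ n → HomTrivial H X.dim (x n)) → compPoly C x f = 0

end Pool.Agent.X308.J
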