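import Pool.Agent.X308.J.Defs
import Pool.Agent.X308.G.Tensor
import Pool.Agent.X308.Z.Fin

/-!
# Abel-Jacobi maps on algebraically trivial cycles
-/

set_option autoImplicit false

universe u v w

namespace Pool.Agent.X308.J

open CategoryTheory Pool.Agent.H914 Pool.Agent.H914.VarClass Pool.Agent.H914.VarClass.Obj
  Pool.Agent.W492.BB Pool.Agent.W550.Corr Pool.Agent.TH133 Pool.Agent.Y148.BB Pool.Agent.X308.S
  Pool.Agent.X308.G

set_option linter.unusedSectionVars false

variable {k : Type u} [Field k] {𝒱 : VarClass k} {C : TheoryData.{u, v, 0} 𝒱 ℚ}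
  [hC : IsChowProj C] {S T U V X Y Z W : 𝒱.Obj}

section chow

include hC

lemma AlgTrivial.deg {i : ℕ} {z : C.A X} (h : AlgTrivial C i z) : C.Deg i z := by
  obtain ⟨T, v, Γ, hT, hv, hv0, hΓ, rfl⟩ := h
  refine act_deg hΓ hv ?_
  rw [hT]
  push_cast
  ring

lemma AlgTrivial.act {i j : ℕ} {z : C.A X} (h : AlgTrivial C i z) {Δ : C.A (X.prod Y)} {e : ℤ}
    (hΔ : C.Deg e Δ) (he : e = X.dim + j - i) : AlgTrivial C j (C.act Δ z) := by
  obtain ⟨T, v, Γ, hT, hv, hv0, hΓ, rfl⟩ := h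
  refine ⟨T, v, C.comp Γ Δ, hT, hv, hv0, comp_deg hΓ hΔ (by rw [he]; ring), ?_⟩
  rw [C.act_comp]

lemma AlgTrivial.pull {i : ℕ} {z : C.A Y} (h : AlgTrivial C i z) (f : X ⟶ Y) :
    AlgTrivial C i (C.pull f z) := by
  rw [← C.act_cograph f z]
  exact h.act (cograph_mem f) (by ring)

lemma AlgTrivial.push {i j : ℕ} {z : C.A X} (h : AlgTrivial C i z) (f : X ⟶ Y)
    (hij : (j : ℤ) = i + Y.dim - X.dim) : AlgTrivial C j (C.push f z) := by
  rw [← C.act_graph f z]
  exact h.act (graph_mem' f) (by rw [hij]; ring)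

lemma AlgTrivial.mul {i j : ℕ} {z b : C.A X} (h : AlgTrivial C i z) {e : ℤ} (hb : C.Deg e b)
    (hij : (j : ℤ) = i + e) : AlgTrivial C j (z * b) := by
  rw [ch_comm C z b, ← C.act_mulCorr b z]
  exact h.act (Pool.Agent.X308.U.mulCorr_mem' hb) (by rw [hij]; ring)

lemma AlgTrivial.of_curve (hT : T.dim = 1) {v : C.A T} (hv : C.Deg 1 v) (hv0 : HasDegree C v 0) :
    AlgTrivial C 1 v := by
  refine ⟨T, v, dg C T, hT, hv, hv0, ?_, by rw [act_dg]⟩
  have := dg_mem C T
  rw [hT] at this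
  exact this

lemma comp_eq_act (Γ : C.A (X.prod Y)) (Δ : C.A (Y.prod Z)) :
    C.comp Γ Δ = C.act (tens C (dg C X) Δ) Γ := by
  rw [act_tens C (ch_comm C), tp_dg, dg_comp]

lemma comp_eq_act' (Γ : C.A (X.prod Y)) (Δ : C.A (Y.prod Z)) :
    C.comp Γ Δ = C.act (tens C (tp C Γ) (dg C Z)) Δ := by
  rw [act_tens C (ch_comm C), tp_tp, comp_dg]

end chow

section weil

variable {K : Type w} [Field K] {H : WeilTheoryData.{u, v, w} C K} [hH : IsWeilProj H]

include hC hH

lemma AlgTrivial.homTrivial {i : ℕ} {z : C.A X} (h : AlgTrivial C i z) : HomTrivial H i z := by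
  refine ⟨h.deg, ?_⟩
  obtain ⟨T, v, Γ, hT, hv, hv0, hΓ, rfl⟩ := h
  have hvT : C.Deg T.dim v := by
    rw [hT]
    exact_mod_cast hv
  rw [cl_act H, cl_zero_of_degree (H := H) hvT hv0, TheoryData.act_map_zero]

/-- (1) implies (2). -/
theorem kills_of_injective {N : ∀ X : 𝒱.Obj, ℕ → C.A X → Prop} (hN : IsAJKernel H N)
    (h : AJInjective N) : KillsActZero H := by
  intro X Y j i Γ z hΓ hk hz
  exact h Y i _ (hz.act hΓ rfl) (hN.kills X Y j i Γ z hΓ hk hz.homTrivial)

/-- (2) implies (3). -/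
theorem hom_of_kills (h : KillsActZero H) : HomTrivialActZero H :=
  fun X Y j i Γ z hΓ hz => h X Y j i Γ z hΓ.1 (kills_of_cl hΓ.2 _) hz

/-- (3) implies (1). -/
theorem injective_of_hom {N : ∀ X : 𝒱.Obj, ℕ → C.A X → Prop} (hN : IsAJKernel H N)
    (h : HomTrivialActZero H) : AJInjective N := by
  intro X i z hz hNz
  obtain ⟨T, v, Γ, hT, hv, hv0, hΓ, rfl⟩ := hz
  obtain ⟨e, he, hev, hk⟩ := hN.curve T X i Γ v hT hΓ hv hv0 hNz
  have hvT : C.Deg T.dim v := by
    rw [hT]
    exact_mod_cast hv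
  have hcl := cl_zero_of_degree (H := H) hvT hv0
  have hcomp : C.comp e Γ ∈ C.gr (T.prod X) i := comp_deg he hΓ (by rw [hT]; push_cast; ring)
  obtain ⟨Γ', h2, h3, h4⟩ := curve_replace hT hcomp hk hv hcl
  have h5 := h T X 1 i Γ' v ⟨by rw [hT]; push_cast; ring_nf; exact h2, h3⟩
    (AlgTrivial.of_curve hT hv hv0)
  rw [h4, C.act_comp, hev] at h5
  exact h5

/-- (3) implies (4). -/
theorem products_of_hom (h : HomTrivialActZero H) : ProductsVanish H := by
  intro X i e a b ha hb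
  change a * b = 0
  rcases lt_or_ge ((i : ℤ) + e) 0 with h1 | h1
  · have h2 := C.mul_mem ha.deg hb.1
    rw [C.gr_neg X _ h1] at h2
    exact (Submodule.mem_bot _).1 h2
  · obtain ⟨j, hj⟩ : ∃ j : ℕ, (j : ℤ) = i + e := ⟨(i + e).toNat, Int.toNat_of_nonneg h1⟩
    rw [ch_comm C a b, ← C.act_mulCorr b a]
    refine h X X i j _ a ⟨?_, cl_mulCorr hb.2⟩ ha
    have := Pool.Agent.X308.U.mulCorr_mem' hb.1
    have e1 : (X.dim : ℤ) + j - i = X.dim + e := by rw [hj]; ring
    rw [e1]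
    exact this

/-- (4) implies (3). -/
theorem hom_of_products (h : ProductsVanish H) : HomTrivialActZero H := by
  intro X Y j i Γ z hΓ hz
  have h1 := h (X.prod Y) j _ _ _ (hz.pull (fst X Y)) hΓ
  have h2 : C.act Γ z = C.push (snd X Y) (Γ * C.pull (fst X Y) z) := rfl
  rw [h2, ch_comm C Γ]
  have h3 : C.pull (fst X Y) z * Γ = 0 := h1
  rw [h3, map_zero]

lemma cl_tens_left {Γ : C.A (X.prod Y)} (Δ : C.A (Z.prod W)) (h : H.cl Γ = 0) :
    H.cl (tens C Γ Δ) = 0 := by
  rw [tens, map_mul, H.cl_pull, h, map_zero, zero_mul]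

lemma cl_tens_right (Γ : C.A (X.prod Y)) {Δ : C.A (Z.prod W)} (h : H.cl Δ = 0) :
    H.cl (tens C Γ Δ) = 0 := by
  rw [tens, map_mul, H.cl_pull (prodMap (snd X Z) (snd Y W)), h, map_zero, mul_zero]

/-- (3) implies (5). -/
theorem compositions_of_hom (h : HomTrivialActZero H) : CompositionsVanish H := by
  intro X Γ Γ' hΓ hΓ'
  constructor
  · rw [comp_eq_act]
    refine h _ _ X.dim X.dim _ Γ ⟨?_, cl_tens_right _ hΓ'.2⟩ hΓ
    have h1 := tens_mem C (dg_mem C X) hΓ'.1
    have e1 : ((X.prod X).dim : ℤ) + X.dim - X.dim = X.dim + X.dim := by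
      rw [dim_prod]; push_cast; ring
    rw [e1]
    exact h1
  · rw [comp_eq_act']
    refine h _ _ X.dim X.dim _ Γ ⟨?_, cl_tens_left _ ?_⟩ hΓ
    · have h1 := tens_mem C (tp_mem C hΓ'.1) (dg_mem C X)
      have e1 : ((X.prod X).dim : ℤ) + X.dim - X.dim = X.dim + X.dim := by
        rw [dim_prod]; push_cast; ring
      rw [e1]
      exact h1
    · rw [cl_tp, hΓ'.2, tp_zero]

/-- (5) implies (6). -/
theorem commute_of_compositions (h : CompositionsVanish H) : Commute H := by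
  intro X Γ Γ' hΓ hΓ'
  obtain ⟨h1, h2⟩ := h X Γ Γ' hΓ hΓ'
  rw [h1, h2]

/-- (6) implies (7). -/
theorem identity_of_commute (h : Commute H) :
    ∃ f : List ℕ →₀ ℚ, f [0, 1] ≠ 0 ∧ SatisfyIdentity H f := by
  classical
  refine ⟨Finsupp.single [0, 1] 1 - Finsupp.single [1, 0] 1, ?_, ?_⟩
  · rw [Finsupp.sub_apply, Finsupp.single_eq_same, Finsupp.single_eq_of_ne (by simp)]
    norm_num
  · intro X x h0 h1
    have e1 : compPoly C x (Finsupp.single [0, 1] 1 - Finsupp.single [1, 0] 1) =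
        compPoly C x (Finsupp.single [0, 1] 1) - compPoly C x (Finsupp.single [1, 0] 1) := by
      rw [compPoly, compPoly, compPoly]
      apply Finsupp.sum_sub_index
      intro w c c'
      rw [sub_smul]
    rw [e1, compPoly, compPoly, Finsupp.sum_single_index (by rw [zero_smul]),
      Finsupp.sum_single_index (by rw [zero_smul]), one_smul, one_smul, sub_eq_zero]
    have e2 : ∀ i j, compWord C x [i, j] = C.comp (x i) (x j) := by
      intro i j
      rw [compWord, compWord, compWord, comp_dg]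
    rw [e2, e2]
    exact h X (x 0) (x 1) h0 (h1 1 le_rfl)

/-- (7) implies (4). -/
theorem products_of_identity {f : List ℕ →₀ ℚ} (hf : f [0, 1] ≠ 0) (h : SatisfyIdentity H f) :
    ProductsVanish H := by
  intro X i e a b ha hb
  change a * b = 0
  by_contra hne
  have hone : ∀ X : 𝒱.Obj, (1 : C.A X) ≠ 0 := fun X h =>
    hH.one_ne_zero X (by rw [← map_one H.cl, h, map_zero])
  obtain ⟨I, hI, -⟩ := Pool.Agent.X308.U.numTrivial_isCycleIdeal (C := C) hone
  -- the degrees
  have hdeg : ∀ (c : ℤ) (z : C.A X), HomTrivial H c z → z ≠ 0 → 1 ≤ c ∧ c ≤ X.dim := by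
    intro c z hz hz0
    constructor
    · by_contra h
      rcases lt_or_eq_of_le (not_lt.1 h : c ≤ 0) with h1 | h1
      · have h3 : z ∈ C.gr X c := hz.1
        rw [C.gr_neg X c h1] at h3
        exact hz0 ((Submodule.mem_bot _).1 h3)
      · subst h1
        obtain ⟨q, hq⟩ := hC.gr_zero X z hz.1
        have h4 := hz.2
        have h5 : HasDegree C (0 : C.A X) 0 := hasDegree_zero
        by_cases hq0 : q = 0
        · exact hz0 (by rw [hq, hq0, zero_smul])
        · have h6 : H.cl (q⁻¹ • z) = 0 := by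
            have h7 : q⁻¹ • z = (q⁻¹ • (1 : C.A X)) * z := by rw [smul_mul_assoc, one_mul]
            rw [h7, map_mul, hz.2, mul_zero]
          rw [hq, smul_smul, inv_mul_cancel₀ hq0, one_smul, map_one] at h6
          exact hH.one_ne_zero X h6
    · by_contra h
      exact hz0 (hC.gr_top X c z hz.1 (not_le.1 h))
  have ha0 : a ≠ 0 := by
    rintro rfl
    exact hne (zero_mul _)
  have hb0 : b ≠ 0 := by
    rintro rfl
    exact hne (mul_zero _)
  obtain ⟨hi1, hi2⟩ := hdeg i a ha.homTrivial ha0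
  obtain ⟨he1, he2⟩ := hdeg e b hb hb0
  obtain ⟨c, rfl⟩ : ∃ c : ℕ, e = c := ⟨e.toNat, (Int.toNat_of_nonneg (by omega)).symm⟩
  have hX : 1 ≤ X.dim := by omega
  obtain ⟨W, hWd⟩ := Pool.Agent.X308.U.exists_dim (C := C) hX (i + c)
  obtain ⟨h0, q, h1, hq, hdegq⟩ := Pool.Agent.X308.U.exists_h hI W
  obtain ⟨d, hd⟩ : ∃ d, d = W.dim := ⟨_, rfl⟩
  rw [← hd] at hdegq hWd
  -- the correspondences
  let Δ0 : C.A ((X.prod W).prod (X.prod W)) :=
    tens C (C.mulCorr a) (C.ext (h0 ^ (d - (i + c))) (h0 ^ c))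
  let Δ1 : C.A ((X.prod W).prod (X.prod W)) :=
    tens C (C.mulCorr b) (C.ext (h0 ^ (d - c)) (h0 ^ 0))
  have hmul0 : AlgTrivial C (X.dim + i) (C.mulCorr a) := by
    refine ha.push (Obj.lift (𝟙 X) (𝟙 X)) ?_
    rw [dim_prod]
    push_cast
    ring
  have hΔ0 : AlgTrivial C (X.prod W).dim Δ0 := by
    refine (hmul0.pull _).mul (C.pull_mem _ (ext_mem' (Pool.Agent.X308.U.pow_mem_gr h1 _)
      (Pool.Agent.X308.U.pow_mem_gr h1 _))) ?_
    rw [dim_prod, ← hd]
    push_cast
    omega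
  have hΔ1 : HomTrivial H (X.prod W).dim Δ1 := by
    refine ⟨?_, cl_tens_left _ (cl_mulCorr hb.2)⟩
    have h3 := tens_mem C (Pool.Agent.X308.U.mulCorr_mem' hb.1)
      (ext_mem' (Pool.Agent.X308.U.pow_mem_gr h1 (d - c)) (Pool.Agent.X308.U.pow_mem_gr h1 0))
    have h4 : (X.dim : ℤ) + c + ((d - c : ℕ) + (0 : ℕ)) = (X.prod W).dim := by
      rw [dim_prod, ← hd]
      push_cast
      omega
    rwa [h4] at h3
  have hact : ∀ (y u : C.A X) (p s t : ℕ) (r : ℚ), HasDegree C (h0 ^ p * h0 ^ t) r →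
      C.act (tens C (C.mulCorr y) (C.ext (h0 ^ p) (h0 ^ s))) (C.ext u (h0 ^ t)) =
        r • C.ext (y * u) (h0 ^ s) := by
    intro y u p s t r hr
    rw [act_tens_ext C _ _ (fun _ _ => ch_comm C _ _), C.act_mulCorr, act_ext' hr, ext_smul_r]
  have hdz : ∀ p t : ℕ, p + t ≠ d → HasDegree C (h0 ^ p * h0 ^ t) 0 := by
    intro p t hpt
    rw [← pow_add]
    refine hasDegree_of_ne (Pool.Agent.X308.U.pow_mem_gr h1 _) ?_
    rw [← hd]
    exact_mod_cast hpt
  have hdq : ∀ p t : ℕ, p + t = d → HasDegree C (h0 ^ p * h0 ^ t) q := by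
    intro p t hpt
    rw [← pow_add, hpt]
    exact hdegq
  have a1 : C.act Δ0 (C.ext 1 (h0 ^ (i + c))) = q • C.ext a (h0 ^ c) := by
    have := hact a 1 (d - (i + c)) c (i + c) q (hdq _ _ (by omega))
    rwa [mul_one] at this
  have a2 : C.act Δ1 (C.ext 1 (h0 ^ (i + c))) = 0 := by
    have := hact b 1 (d - c) 0 (i + c) 0 (hdz _ _ (by omega))
    rwa [zero_smul] at this
  have a3 : C.act Δ0 (C.ext a (h0 ^ c)) = 0 := by
    have := hact a a (d - (i + c)) c c 0 (hdz _ _ (by omega))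
    rwa [zero_smul] at this
  have a4 : C.act Δ1 (C.ext a (h0 ^ c)) = q • C.ext (b * a) (h0 ^ 0) :=
    hact b a (d - c) 0 c q (hdq _ _ (by omega))
  have a5 : C.act Δ0 (C.ext (b * a) (h0 ^ 0)) = 0 := by
    have := hact a (b * a) (d - (i + c)) c 0 0 (hdz _ _ (by omega))
    rwa [zero_smul] at this
  have a6 : C.act Δ1 (C.ext (b * a) (h0 ^ 0)) = 0 := by
    have := hact b (b * a) (d - c) 0 0 0 (hdz _ _ (by omega))
    rwa [zero_smul] at this
  -- the letters
  let x : ℕ → C.A ((X.prod W).prod (X.prod W)) := fun n =>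
    if n = 0 then Δ0 else if n = 1 then Δ1 else 0
  have hx0 : x 0 = Δ0 := if_pos rfl
  have hx1 : x 1 = Δ1 := by
    change (if (1 : ℕ) = 0 then Δ0 else if (1 : ℕ) = 1 then Δ1 else 0) = Δ1
    rw [if_neg (by norm_num), if_pos rfl]
  have hx2 : ∀ n, n ≠ 0 → n ≠ 1 → x n = 0 := by
    intro n h h'
    change (if n = 0 then Δ0 else if n = 1 then Δ1 else 0) = 0
    rw [if_neg h, if_neg h']
  have hxh : ∀ n, 1 ≤ n → HomTrivial H (X.prod W).dim (x n) := by
    intro n hn
    by_cases h' : n = 1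
    · rw [h', hx1]
      exact hΔ1
    · rw [hx2 n (by omega) h']
      exact ⟨Submodule.zero_mem _, map_zero _⟩
  have s0 : ∀ n, C.act (x n) (C.ext 1 (h0 ^ (i + c))) =
      if n = 0 then q • C.ext a (h0 ^ c) else 0 := by
    intro n
    by_cases h : n = 0
    · rw [if_pos h, h, hx0, a1]
    · rw [if_neg h]
      by_cases h' : n = 1
      · rw [h', hx1, a2]
      · rw [hx2 n h h', TheoryData.act_zero]
  have s1 : ∀ n, C.act (x n) (C.ext a (h0 ^ c)) =
      if n = 1 then q • C.ext (b * a) (h0 ^ 0) else 0 := by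
    intro n
    by_cases h : n = 0
    · rw [h, hx0, a3, if_neg (by norm_num)]
    · by_cases h' : n = 1
      · rw [if_pos h', h', hx1, a4]
      · rw [if_neg h', hx2 n h h', TheoryData.act_zero]
  have s2 : ∀ n, C.act (x n) (C.ext (b * a) (h0 ^ 0)) = 0 := by
    intro n
    by_cases h : n = 0
    · rw [h, hx0, a5]
    · by_cases h' : n = 1
      · rw [h', hx1, a6]
      · rw [hx2 n h h', TheoryData.act_zero]
  -- the linear form
  let φ : C.A (X.prod W) → C.A X := fun y => C.push (fst X W) (y * C.pull (snd X W) (h0 ^ d))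
  have hφ0 : φ 0 = 0 := by simp [φ]
  have hφs : ∀ (r : ℚ) (y : C.A (X.prod W)), φ (r • y) = r • φ y := by
    intro r y
    simp only [φ]
    rw [smul_mul_assoc, map_smul]
  have hφsum : ∀ (s : Finset (List ℕ)) (g : List ℕ → C.A (X.prod W)),
      φ (∑ i ∈ s, g i) = ∑ i ∈ s, φ (g i) := by
    intro s g
    simp only [φ]
    rw [Finset.sum_mul, map_sum]
  have hφe : ∀ (u : C.A X) (t : ℕ) (r : ℚ), HasDegree C (h0 ^ t * h0 ^ d) r →
      φ (C.ext u (h0 ^ t)) = r • u := by
    intro u t r hr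
    simp only [φ]
    rw [TheoryData.ext, mul_assoc, ← map_mul, C.proj_left, (hr X).2, mul_smul_comm, mul_one]
  have p0 : φ (C.ext 1 (h0 ^ (i + c))) = 0 := by
    rw [hφe 1 (i + c) 0 (hdz _ _ (by omega)), zero_smul]
  have p1 : φ (C.ext a (h0 ^ c)) = 0 := by
    rw [hφe a c 0 (hdz _ _ (by omega)), zero_smul]
  have p2 : φ (C.ext (b * a) (h0 ^ 0)) = q • (b * a) :=
    hφe (b * a) 0 q (hdq _ _ (by omega))
  have hzero : ∀ w : List ℕ, C.act (compWord C x w) (0 : C.A (X.prod W)) = 0 := fun w =>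
    TheoryData.act_map_zero _ _
  have hword : ∀ w : List ℕ, φ (C.act (compWord C x w) (C.ext 1 (h0 ^ (i + c)))) =
      if w = [0, 1] then (q * q * q) • (b * a) else 0 := by
    intro w
    match w with
    | [] => rw [compWord, act_dg, p0, if_neg (by simp)]
    | [m] =>
      rw [compWord, compWord, comp_dg, s0, if_neg (show ¬ ([m] : List ℕ) = [0, 1] by simp)]
      split_ifs
      · rw [hφs, p1, smul_zero]
      · exact hφ0
    | [m, n] =>
      rw [compWord, compWord, compWord, comp_dg, C.act_comp, s0]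
      by_cases hm : m = 0
      · rw [if_pos hm, act_map_smul, s1]
        by_cases hn : n = 1
        · have e2 : ([m, n] : List ℕ) = [0, 1] := by rw [hm, hn]
          rw [if_pos hn, if_pos e2, hφs, hφs, p2, smul_smul, smul_smul]
        · have e2 : ¬ ([m, n] : List ℕ) = [0, 1] := by
            intro h
            simp at h
            exact hn h.2
          rw [if_neg hn, if_neg e2, smul_zero, hφ0]
      · have e2 : ¬ ([m, n] : List ℕ) = [0, 1] := by
          intro h
          simp at h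
          exact hm h.1
        rw [if_neg hm, if_neg e2, TheoryData.act_map_zero, hφ0]
    | m :: n :: l :: w =>
      have e2 : ¬ (m :: n :: l :: w : List ℕ) = [0, 1] := by simp
      rw [if_neg e2, compWord, compWord, compWord, C.act_comp, C.act_comp, C.act_comp, s0]
      by_cases hm : m = 0
      · rw [if_pos hm, act_map_smul, s1]
        by_cases hn : n = 1
        · rw [if_pos hn]
          simp only [act_map_smul, s2, smul_zero, hzero, hφ0]
        · rw [if_neg hn, smul_zero, TheoryData.act_map_zero, hzero, hφ0]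
      · rw [if_neg hm, TheoryData.act_map_zero, TheoryData.act_map_zero, hzero, hφ0]
  have h3 := h (X.prod W) x (by rw [hx0]; exact hΔ0) hxh
  have h4 : φ (C.act (compPoly C x f) (C.ext 1 (h0 ^ (i + c)))) =
      f [0, 1] • ((q * q * q) • (b * a)) := by
    rw [compPoly, Finsupp.sum, act_sum, hφsum]
    have e1 : ∀ w' ∈ f.support, φ (C.act (f w' • compWord C x w') (C.ext 1 (h0 ^ (i + c)))) =
        if w' = [0, 1] then f [0, 1] • ((q * q * q) • (b * a)) else 0 := by
      intro w' _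
      have h5 : C.act (f w' • compWord C x w') (C.ext 1 (h0 ^ (i + c))) =
          f w' • C.act (compWord C x w') (C.ext 1 (h0 ^ (i + c))) := by
        rw [← actB_apply, ← actB_apply, map_smul, LinearMap.smul_apply]
      rw [h5, hφs, hword w']
      split_ifs with h
      · rw [h]
      · rw [smul_zero]
    rw [Finset.sum_congr rfl e1, Finset.sum_ite_eq', if_pos (Finsupp.mem_support_iff.2 hf)]
  rw [h3, C.act_zero, hφ0] at h4
  apply hne
  rw [ch_comm C a b]
  exact Pool.Agent.X308.U.smul_cancel (mul_ne_zero (mul_ne_zero hq hq) hq)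
    (Pool.Agent.X308.U.smul_cancel hf h4.symm)

/-- **Abel-Jacobi maps on algebraically trivial cycles.** -/
theorem alg_iff {N : ∀ X : 𝒱.Obj, ℕ → C.A X → Prop} (hN : IsAJKernel H N) :
    List.TFAE [AJInjective N, KillsActZero H, HomTrivialActZero H, ProductsVanish H,
      CompositionsVanish H, Commute H, ∃ f : List ℕ →₀ ℚ, f [0, 1] ≠ 0 ∧ SatisfyIdentity H f] := by
  tfae_have 1 → 2 := kills_of_injective hN
  tfae_have 2 → 3 := hom_of_kills
  tfae_have 3 → 1 := injective_of_hom hN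
  tfae_have 4 → 3 := hom_of_products
  tfae_have 3 → 5 := compositions_of_hom
  tfae_have 5 → 6 := commute_of_compositions
  tfae_have 6 → 7 := identity_of_commute
  tfae_have 7 → 4 := fun ⟨f, hf, h⟩ => products_of_identity hf h
  tfae_finish

end weil

end Pool.Agent.X308.J
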